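import Pool.Agent.Q146.KB.Main

/-!
# The area of a Klein bottle whose odd loops have length at least `π`, in each conformal class

Let a Möbius band `M` fill the circle of length `2π` without shortcuts. Gluing antipodal points of its
boundary gives a Klein bottle in which the closed curves that cross the glued boundary an odd number of
times have length at least `π`; by the uniformization theorem it is a flat Klein bottle `K_h` with a
conformal factor `f`, and these curves are the odd loops. The theorem below bounds the area from below
by an explicit function of the conformal class `h`, larger than `2π`. It is proved with the two families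
of loops that are extremal in the conformal class: great circles of latitude at most `arctan (sinh b)`
(in the Mercator chart), with the density found by inverting an Abel transform, and the vertical loops.
-/

set_option autoImplicit false

namespace Pool.Agent.Results.MP_02f475_gt.KleinBottleSystole

open Pool.Agent.Q146.KB

/-- A metric `f² (dx² + du²)` on the Klein bottle `K_h` all of whose smooth odd loops have length at
least `π` has area more than `2π`, with explicit lower bounds in each conformal class. -/
theorem result (h : ℝ) (f : ℝ → ℝ → ℝ) (h0 : 0 < h) (hf : ConformalFactor h f)
    (H : ∀ X U : ℝ → ℝ, OddLoop h X U → Real.pi ≤ length f X U) :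
    2 * Real.pi < area h f ∧ Real.pi ^ 3 / (2 * h) ≤ area h f ∧
      ∀ b : ℝ, 0 ≤ b → b ≤ h →
        Real.arctan (Real.sinh b) + (h - b) / Real.cosh b = Real.pi / 2 →
        2 * Real.pi * (Real.sinh b / Real.cosh b +
          (Real.pi / 2 - Real.arctan (Real.sinh b)) / Real.cosh b) ≤ area h f := by
  have hv := hv_of_odd hf h0 H
  have hg : ∀ T ∈ Set.Ioo 0 (Real.sinh h), ∀ c : ℝ, Real.pi ≤ length f
      (fun t => Real.pi * t + c) (fun t => Real.arsinh (T * Real.sin (Real.pi * t))) :=
    fun T _ c => H _ _ (oddLoop_great h T c)
  exact ⟨area_gt hf hv hg h0, bound_short hf hv h0,
    fun b hb hbh he => bound_long hf hv hg b hb hbh he⟩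

end Pool.Agent.Results.MP_02f475_gt.KleinBottleSystole
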